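import Pool.Graph.R_seed8.Results.MP_c4f89b_an.NonSigmaFinite

/-!
# MP_c4f89b_an, Q1: almost all fibres of the generic graph are perfect

Let `d ≥ 2` and let `f` be the generic homeomorphism of `[0,1]^d`. For almost every `p ∈ ℝ^d` the
fibre of the graph of `f` over `p` under the 1-Lipschitz projection
`(x, y) ↦ (y_0, x_1, …, x_{d-1})` has a Cantor set in every neighbourhood of each of its points, and
every nonempty relatively open part of the graph has a projection of positive measure. In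
particular no such part has σ-finite `d`-dimensional Hausdorff measure.
-/

set_option autoImplicit false

open MeasureTheory Set Filter Topology unitInterval

namespace Pool.Agent.Results.MP_c4f89b_an.PerfectFibres

open Pool.Agent.R464.HG Pool.Agent.Results.MP_c4f89b_an.NonSigmaFinite

variable {n : ℕ}

/-- In every open box there is a point at which the first coordinate of `f` lies in `(0, 1)`. -/
theorem exists_interior' {f : (Fin (n + 2) → I) → Fin (n + 2) → I} (hf : IsHomeomorph f)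
    {lo hi : Fin (n + 2) → ℝ} (hb : ∀ i, 0 ≤ lo i ∧ lo i < hi i ∧ hi i ≤ 1) :
    ∃ x : Fin (n + 2) → I, (∀ i, (x i : ℝ) ∈ Ioo (lo i) (hi i)) ∧
      (f x 0 : ℝ) ∈ Ioo (0 : ℝ) 1 := by
  let B : Set (Fin (n + 2) → I) := {x | ∀ i, (x i : ℝ) ∈ Ioo (lo i) (hi i)}
  have hB : IsOpen B := by
    have : B = ⋂ i, {x : Fin (n + 2) → I | (x i : ℝ) ∈ Ioo (lo i) (hi i)} := by
      ext x; simp [B]
    rw [this]
    exact isOpen_iInter_of_finite fun i =>
      isOpen_Ioo.preimage (continuous_subtype_val.comp (continuous_apply i))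
  have hfB : IsOpen (f '' B) := hf.isOpenMap B hB
  let m : Fin (n + 2) → I := fun i => ⟨(lo i + hi i) / 2, by
    constructor <;> linarith [(hb i).1, (hb i).2.1, (hb i).2.2]⟩
  have hm : m ∈ B := fun i => ⟨by simp only [m]; linarith [(hb i).2.1],
    by simp only [m]; linarith [(hb i).2.1]⟩
  let x0 : Fin (n + 2) → I := f m
  let γ : ℝ → Fin (n + 2) → I := fun s i => projIcc 0 1 zero_le_one ((1 - s) * x0 i + s * (1 / 2))
  have hγ : Continuous γ := by
    refine continuous_pi fun i => continuous_projIcc.comp ?_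
    fun_prop
  have hγ0 : γ 0 = x0 := by
    funext i
    simp [γ]
  have hev : ∀ᶠ s in 𝓝 (0 : ℝ), γ s ∈ f '' B :=
    (hfB.preimage hγ).mem_nhds (by
      show γ 0 ∈ f '' B
      rw [hγ0]; exact mem_image_of_mem f hm)
  obtain ⟨ε, hε, hball⟩ := Metric.eventually_nhds_iff.mp hev
  let s := min (ε / 2) (1 / 2)
  have hs0 : 0 < s := by positivity
  have hs1 : s ≤ 1 / 2 := min_le_right _ _
  have hs2 : s ≤ ε / 2 := min_le_left _ _
  obtain ⟨x, hx, hfx⟩ := hball (y := s) (by rw [Real.dist_eq, sub_zero, abs_of_pos hs0]; linarith)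
  refine ⟨x, hx, ?_⟩
  rw [hfx]
  obtain ⟨a0, a1⟩ := (x0 0).2
  have e1 : 0 < (1 - s) * (x0 0 : ℝ) + s * (1 / 2) := by nlinarith
  have e2 : (1 - s) * (x0 0 : ℝ) + s * (1 / 2) < 1 := by nlinarith
  simp only [γ, coe_projIcc]
  constructor
  · exact lt_max_of_lt_right (lt_min zero_lt_one e1)
  · rw [min_eq_right e2.le, max_eq_right e1.le]; exact e2

theorem perturb2 {f : (Fin (n + 2) → I) → Fin (n + 2) → I} (hf : IsHomeomorph f) {η : ℝ}
    (hη : 0 < η) {lo hi : Fin (n + 2) → ℝ} (hb : ∀ i, 0 ≤ lo i ∧ lo i < hi i ∧ hi i ≤ 1) :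
    ∃ g : ℕ → (Fin (n + 2) → I) → Fin (n + 2) → I,
      (∀ k, IsHomeomorph (g k)) ∧ (∀ k x, dist (g k x) (f x) ≤ η) ∧
      (∃ W : Set (Fin (n + 2) → ℝ), IsOpen W ∧ W.Nonempty ∧
        ∀ᵐ p, p ∈ W → ∀ᶠ k in atTop, p ∈ Ns (g k) (lo 0) (hi 0) ∩
          {p | ∀ i : Fin (n + 1), p i.succ ∈ Ioo (lo i.succ) (hi i.succ)}) := by
  let a0 : ℝ := min (η / 2) (1 / 2)
  have ha0 : 0 < a0 := by positivity
  have ha1 : a0 ≤ 1 / 2 := min_le_right _ _
  have ha2 : a0 ≤ η / 2 := min_le_left _ _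
  obtain ⟨c, hc0, hc1, hcae⟩ := exists_good_c hf.continuous hf.injective ha0
  -- the first shear
  let hρ : (Fin (n + 2) → I) → Fin (n + 2) → ℝ := fun y i => if i = 0 then 0 else c * y 0
  have hρb : ∀ y i, |hρ y i| ≤ a0 := by
    intro y i
    simp only [hρ]
    split_ifs
    · simpa using ha0.le
    · rw [abs_mul, abs_of_pos hc0]
      obtain ⟨b0, b1⟩ := (y 0).2
      rw [abs_of_nonneg b0]
      nlinarith
  have hρb' : ∀ y i, |hρ y i| ≤ 1 / 2 := fun y i => (hρb y i).trans ha1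
  have hρc : Continuous hρ := by
    refine continuous_pi fun i => ?_
    by_cases hi : i = 0
    · simp only [hρ, hi, if_true]; exact continuous_const
    · simp only [hρ, hi, if_false]; fun_prop
  have hρH : IsHomeomorph (Phi hρ hρb') := by
    refine Phi_isHomeomorph hρb' hρc {i | i ≠ 0} ?_ ?_
    · intro y i hi
      have : i = 0 := by simpa using hi
      simp [hρ, this]
    · intro y z hyz
      have := hyz 0 (by simp)
      funext i
      simp [hρ, this]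
  let w : (Fin (n + 2) → I) → ℝ := fun y => ∑ i : Fin (n + 1), (y i.succ : ℝ) * c ^ (2 * (i : ℕ))
  have hwc : Continuous w := by fun_prop
  have hwvv : ∀ y, w (Phi hρ hρb' y) = vv c y := by
    intro y
    simp only [w, vv, Phi, hρ, Fin.succ_ne_zero, if_false]
  let hτ : ℕ → (Fin (n + 2) → I) → Fin (n + 2) → ℝ := fun k y i =>
    if i = 0 then a0 * Real.sin (k * w y) else 0
  have hτb : ∀ k y i, |hτ k y i| ≤ a0 := by
    intro k y i
    simp only [hτ]
    split_ifs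
    · rw [abs_mul, abs_of_pos ha0]
      have := Real.abs_sin_le_one (k * w y)
      nlinarith
    · simpa using ha0.le
  have hτb' : ∀ k y i, |hτ k y i| ≤ 1 / 2 := fun k y i => (hτb k y i).trans ha1
  have hτc : ∀ k, Continuous (hτ k) := by
    intro k
    refine continuous_pi fun i => ?_
    by_cases hi : i = 0
    · simp only [hτ, hi, if_true]; fun_prop
    · simp only [hτ, hi, if_false]; exact continuous_const
  have hτH : ∀ k, IsHomeomorph (Phi (hτ k) (hτb' k)) := by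
    intro k
    refine Phi_isHomeomorph (hτb' k) (hτc k) {0} ?_ ?_
    · intro y i hi
      have : i ≠ 0 := by simpa using hi
      simp [hτ, this]
    · intro y z hyz
      have hw : w y = w z := by
        simp only [w]
        refine Finset.sum_congr rfl fun i _ => ?_
        rw [hyz i.succ (by simp [Fin.succ_ne_zero])]
      funext i
      simp [hτ, hw]
  let g : ℕ → (Fin (n + 2) → I) → Fin (n + 2) → I := fun k x =>
    Phi (hτ k) (hτb' k) (Phi hρ hρb' (f x))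
  have hgU : ∀ k p t, UU (g k) p t =
      bump (UU f p t) (a0 * Real.sin (k * vv c (f (pt p t)))) := by
    intro k p t
    have e1 : (Phi hρ hρb' (f (pt p t)) 0 : ℝ) = f (pt p t) 0 := by
      simp [Phi, hρ, bump_zero]
    simp only [UU, g]
    rw [← hwvv]
    change bump (Phi hρ hρb' (f (pt p t)) 0 : ℝ) (hτ k (Phi hρ hρb' (f (pt p t))) 0) = _
    rw [e1]
    simp [hτ]
  have hu : ∀ p, Continuous fun t => UU f p t := fun p =>
    (continuous_UU hf.continuous).comp (continuous_const.prodMk continuous_id)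
  have hv : ∀ p, Continuous fun t => vv c (f (pt p t)) := fun p =>
    continuous_vv.comp (continuous_const.prodMk
      (hf.continuous.comp (continuous_pt.comp (continuous_const.prodMk continuous_id))))
  have hbumpc : ∀ k : ℝ, Continuous fun z : (Fin (n + 2) → ℝ) × ℝ => bump (UU f z.1 z.2) k := by
    intro k
    have := continuous_UU hf.continuous (n := n)
    unfold bump
    fun_prop
  refine ⟨g, fun k => (hτH k).comp (hρH.comp hf), ?_, ?_⟩
  · intro k x
    calc dist (g k x) (f x) ≤ dist (g k x) (Phi hρ hρb' (f x)) + dist (Phi hρ hρb' (f x)) (f x) :=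
          dist_triangle _ _ _
      _ ≤ a0 + a0 := by
          gcongr
          · exact Phi_dist (hτb' k) ha0.le (hτb k) _
          · exact Phi_dist hρb' ha0.le hρb _
      _ ≤ η := by linarith
  · obtain ⟨x, hx1, hx2⟩ := exists_interior' hf hb
    refine ⟨{p | (∀ i : Fin (n + 1), p i.succ ∈ Ioo (lo i.succ) (hi i.succ)) ∧
      (∀ i, p i ∈ Ioo (0 : ℝ) 1) ∧ ∃ t ∈ Ioo (lo 0) (hi 0),
      bump (UU f p t) (-a0) < p 0 ∧ p 0 < bump (UU f p t) a0}, ?_, ?_, ?_⟩
    · have e0 : IsOpen {p : Fin (n + 2) → ℝ | ∀ i : Fin (n + 1),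
          p i.succ ∈ Ioo (lo i.succ) (hi i.succ)} := by
        have : {p : Fin (n + 2) → ℝ | ∀ i : Fin (n + 1),
          p i.succ ∈ Ioo (lo i.succ) (hi i.succ)} =
            ⋂ i : Fin (n + 1), {p | p i.succ ∈ Ioo (lo i.succ) (hi i.succ)} := by ext p; simp
        rw [this]
        exact isOpen_iInter_of_finite fun i => isOpen_Ioo.preimage (continuous_apply i.succ)
      have e1 : IsOpen {p : Fin (n + 2) → ℝ | ∀ i, p i ∈ Ioo (0 : ℝ) 1} := by
        have : {p : Fin (n + 2) → ℝ | ∀ i, p i ∈ Ioo (0 : ℝ) 1} =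
            ⋂ i, {p | p i ∈ Ioo (0 : ℝ) 1} := by ext p; simp
        rw [this]
        exact isOpen_iInter_of_finite fun i => isOpen_Ioo.preimage (continuous_apply i)
      have e2 : IsOpen {p : Fin (n + 2) → ℝ | ∃ t ∈ Ioo (lo 0) (hi 0),
          bump (UU f p t) (-a0) < p 0 ∧ p 0 < bump (UU f p t) a0} := by
        have : {p : Fin (n + 2) → ℝ | ∃ t ∈ Ioo (lo 0) (hi 0),
          bump (UU f p t) (-a0) < p 0 ∧ p 0 < bump (UU f p t) a0} =
          ⋃ t ∈ Ioo (lo 0) (hi 0), {p | bump (UU f p t) (-a0) < p 0 ∧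
            p 0 < bump (UU f p t) a0} := by
          ext p; simp only [Set.mem_ofPred_eq, mem_iUnion, exists_prop]
        rw [this]
        refine isOpen_biUnion fun t _ => ?_
        have c1 : ∀ k : ℝ, Continuous fun p : Fin (n + 2) → ℝ => bump (UU f p t) k := fun k =>
          (hbumpc k).comp (continuous_id.prodMk continuous_const)
        exact (isOpen_lt (c1 _) (continuous_apply 0)).inter (isOpen_lt (continuous_apply 0) (c1 _))
      exact e0.inter (e1.inter e2)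
    · have hx01 : ∀ i, (x i : ℝ) ∈ Ioo (0 : ℝ) 1 := fun i =>
        ⟨lt_of_le_of_lt (hb i).1 (hx1 i).1, lt_of_lt_of_le (hx1 i).2 (hb i).2.2⟩
      refine ⟨Fin.cons (f x 0 : ℝ) (fun i => (x i.succ : ℝ)), ?_, ?_, x 0, hx1 0, ?_⟩
      · intro i
        simpa using hx1 i.succ
      · intro i
        refine Fin.cases ?_ (fun i => ?_) i
        · simpa using hx2
        · simpa using hx01 i.succ
      · have hpt : pt (Fin.cons (f x 0 : ℝ) (fun i => (x i.succ : ℝ))) (x 0 : ℝ) = x := by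
          funext i
          refine Fin.cases ?_ (fun i => ?_) i
          · simp [pt]
          · simp [pt, Fin.succ_ne_zero]
        simp only [UU, hpt, Fin.cons_zero]
        have hpos : 0 < (f x 0 : ℝ) * (1 - f x 0) * a0 :=
          mul_pos (mul_pos hx2.1 (by linarith [hx2.2])) ha0
        unfold bump
        constructor <;> linarith
    · filter_upwards [hcae] with p hp1 hpW
      obtain ⟨hpB, hpI, t, ht, h1, h2⟩ := hpW
      have hpI' : p ∈ Icc (0 : Fin (n + 2) → ℝ) 1 :=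
        ⟨fun i => (hpI i).1.le, fun i => (hpI i).2.le⟩
      have := doubleCross_of_point (hu p) (hv p) (hb 0).2.1
        (fun s1 s2 h1 h2 h3 => hp1 hpI' s1 s2 (by linarith [(hb 0).1]) h2
          (by linarith [(hb 0).2.2]))
        (Ioo_subset_Icc_self ht) h1 h2
      filter_upwards [this] with k hk
      refine ⟨⟨hpI', ?_⟩, hpB⟩
      have h7 : UU (g k) p = fun s => bump (UU f p s) (a0 * Real.sin (k * vv c (f (pt p s)))) := by
        funext s; exact hgU k p s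
      rw [h7]
      exact hk

/-- The side part of the box: the last coordinates lie in the given intervals. -/
def Side (lo hi : Fin (n + 2) → ℝ) : Set (Fin (n + 2) → ℝ) :=
  {p | ∀ i : Fin (n + 1), p i.succ ∈ Ioo (lo i.succ) (hi i.succ)}

theorem perturb2' (f : HomeoCube (n + 2)) {r : ℝ} (hr : 0 < r) {lo hi : Fin (n + 2) → ℝ}
    (hb : ∀ i, 0 ≤ lo i ∧ lo i < hi i ∧ hi i ≤ 1) :
    ∃ g : ℕ → HomeoCube (n + 2), (∀ k, g k ∈ Metric.ball f r) ∧
      (∃ W : Set (Fin (n + 2) → ℝ), IsOpen W ∧ W.Nonempty ∧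
        ∀ᵐ p, p ∈ W → ∀ᶠ k in atTop, p ∈ Ns (g k).1 (lo 0) (hi 0) ∩ Side lo hi) := by
  obtain ⟨g, hg1, hg2, hg4⟩ := perturb2 f.2 (half_pos hr) hb
  refine ⟨fun k => ⟨⟨g k, (hg1 k).continuous⟩, hg1 k⟩, fun k => ?_, hg4⟩
  rw [Metric.mem_ball, Subtype.dist_eq]
  refine lt_of_le_of_lt ((ContinuousMap.dist_le (half_pos hr).le).mpr fun x => ?_) (half_lt_self hr)
  exact hg2 k x

theorem isOpen_posN' (lo hi : Fin (n + 2) → ℝ) :
    IsOpen {f : HomeoCube (n + 2) | 0 < volume (Ns f.1 (lo 0) (hi 0) ∩ Side lo hi)} := by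
  rw [← isClosed_compl_iff]
  refine isClosed_of_closure_subset fun f hf => ?_
  obtain ⟨g, hg, hlim⟩ := mem_closure_iff_seq_limit.mp hf
  simp only [mem_compl_iff, Set.mem_ofPred_eq, not_lt, nonpos_iff_eq_zero] at hg ⊢
  refine measure_mono_null (t := ⋃ k, (Ns (g k).1 (lo 0) (hi 0) ∩ Side lo hi)) (fun p hp => ?_)
    (measure_iUnion_null hg)
  obtain ⟨k, hk⟩ := (Ns_eventually (g := fun k => (g k).1) (ptwise hlim) hp.1).exists
  exact mem_iUnion.mpr ⟨k, hk, hp.2⟩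

theorem dense_posN' {lo hi : Fin (n + 2) → ℝ} (hb : ∀ i, 0 ≤ lo i ∧ lo i < hi i ∧ hi i ≤ 1) :
    Dense {f : HomeoCube (n + 2) | 0 < volume (Ns f.1 (lo 0) (hi 0) ∩ Side lo hi)} := by
  rw [Metric.dense_iff]
  intro f r hr
  obtain ⟨g, hg1, W, hW1, hW2, hW3⟩ := perturb2' f hr hb
  by_contra hcon
  have hall : ∀ k, volume (Ns (g k).1 (lo 0) (hi 0) ∩ Side lo hi) = 0 := fun k => by
    by_contra hk
    exact hcon ⟨g k, hg1 k, pos_iff_ne_zero.mpr hk⟩
  have h1 : ∀ᵐ p : Fin (n + 2) → ℝ, ∀ k, p ∉ Ns (g k).1 (lo 0) (hi 0) ∩ Side lo hi := by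
    rw [ae_all_iff]
    intro k
    rw [ae_iff]; simpa using hall k
  have h2 : ∀ᵐ p : Fin (n + 2) → ℝ, p ∉ W := by
    filter_upwards [h1, hW3] with p hp1 hp2 hpW
    obtain ⟨k, hk⟩ := (hp2 hpW).exists
    exact hp1 k hk
  have h3 : volume W = 0 := by
    rw [ae_iff] at h2; simpa using h2
  exact (hW1.measure_pos volume hW2).ne' h3

/-- The `d`-dimensional Hausdorff measure is σ-finite on the set `S`: it is a countable union of
sets of finite measure. -/
def SigmaFiniteSet (d : ℕ) (S : Set (EuclideanSpace ℝ (Fin d ⊕ Fin d))) : Prop :=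
  ∃ A : ℕ → Set (EuclideanSpace ℝ (Fin d ⊕ Fin d)),
    S = ⋃ n, A n ∧ ∀ n, μH[(d : ℝ)] (A n) < ⊤

/-- `S` contains a topological copy of the Cantor space. -/
def HasCantorSet {E : Type*} [TopologicalSpace E] (S : Set E) : Prop :=
  ∃ φ : (ℕ → Bool) → E, Continuous φ ∧ Function.Injective φ ∧ ∀ b, φ b ∈ S

/-- The fibre of the graph of `f` over `p` under the projection
`(x, y) ↦ (y_0, x_1, …, x_{d-1})`: the points `(x, f x)` with `(f x)_0 = p_0` and `x_i = p_i` for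
`1 ≤ i < d`. -/
def Fibre {d : ℕ} (f : HomeoCube d) (p : Fin d → ℝ) : Set (EuclideanSpace ℝ (Fin d ⊕ Fin d)) :=
  {z | z ∈ graph f ∧ ∀ i : Fin d, (if (i : ℕ) = 0 then z (Sum.inr i) else z (Sum.inl i)) = p i}

/-- The points `p` outside the null sets of the argument. -/
def Good (f : HomeoCube (n + 2)) (p : Fin (n + 2) → ℝ) : Prop :=
  (∀ q : ℚ × ℚ, (0 : ℝ) < q.1 → (q.1 : ℝ) < q.2 → (q.2 : ℝ) < 1 → p ∉ Bad f q.1 q.2) ∧
    ∀ q : ℚ, UU f.1 p q ≠ p 0

/-- The zeros on the line over `p`. -/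
def Zr (f : HomeoCube (n + 2)) (p : Fin (n + 2) → ℝ) : Set ℝ :=
  {t | t ∈ Icc (0 : ℝ) 1 ∧ UU f.1 p t = p 0}

theorem ae_good (f : HomeoCube (n + 2))
    (h2 : ∀ a b : ℚ, (0 : ℝ) < a → (a : ℝ) < b → (b : ℝ) < 1 → volume (Bad f a b) = 0) :
    ∀ᵐ p : Fin (n + 2) → ℝ, Good f p := by
  have hbad : ∀ᵐ p : Fin (n + 2) → ℝ, ∀ q : ℚ × ℚ, (0 : ℝ) < q.1 → (q.1 : ℝ) < q.2 →
      (q.2 : ℝ) < 1 → p ∉ Bad f q.1 q.2 := by
    rw [ae_all_iff]
    intro q
    by_cases h : (0 : ℝ) < q.1 ∧ (q.1 : ℝ) < q.2 ∧ (q.2 : ℝ) < 1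
    · have : ∀ᵐ p : Fin (n + 2) → ℝ, p ∉ Bad f q.1 q.2 := by
        rw [ae_iff]; simpa using h2 q.1 q.2 h.1 h.2.1 h.2.2
      filter_upwards [this] with p hp _ _ _
      exact hp
    · exact Eventually.of_forall fun p a1 a2 a3 => absurd ⟨a1, a2, a3⟩ h
  have hUc : ∀ t : ℝ, Continuous fun p : Fin (n + 2) → ℝ => UU f.1 p t := fun t =>
    (continuous_UU f.1.continuous).comp (continuous_id.prodMk continuous_const)
  have hend : ∀ t : ℝ, ∀ᵐ p : Fin (n + 2) → ℝ, UU f.1 p t ≠ p 0 := by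
    intro t
    rw [ae_iff]
    have hB : MeasurableSet {p : Fin (n + 2) → ℝ | ¬ UU f.1 p t ≠ p 0} := by
      have : {p : Fin (n + 2) → ℝ | ¬ UU f.1 p t ≠ p 0} = {p | UU f.1 p t = p 0} := by
        ext p; simp
      rw [this]
      exact (isClosed_eq (hUc t) (continuous_apply 0)).measurableSet
    refine null_of_sections_fst hB fun x' => ?_
    refine Set.Subsingleton.measure_zero ?_ _
    intro s hs s' hs'
    simp only [Set.mem_ofPred_eq, not_not, Fin.cons_zero, UU] at hs hs'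
    rw [← hs, ← hs', pt_cons s s']
  have hend' : ∀ᵐ p : Fin (n + 2) → ℝ, ∀ q : ℚ, UU f.1 p q ≠ p 0 :=
    ae_all_iff.2 fun q => hend q
  filter_upwards [hbad, hend'] with p h1 h2
  exact ⟨h1, h2⟩

theorem perfect_Zr {f : HomeoCube (n + 2)} {p : Fin (n + 2) → ℝ} (hp : Good f p)
    (hpI : p ∈ Icc (0 : Fin (n + 2) → ℝ) 1) : Perfect (Zr f p) := by
  have hw : Continuous fun t => UU f.1 p t :=
    (continuous_UU f.1.continuous).comp (continuous_const.prodMk continuous_id)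
  have hFin : ∀ t ∈ Zr f p, t ∈ Ioo (0 : ℝ) 1 := by
    rintro t ⟨ht, hteq⟩
    have e0 := hp.2 0
    have e1 := hp.2 1
    norm_num at e0 e1
    exact ⟨lt_of_le_of_ne ht.1 (by rintro rfl; exact e0 hteq),
      lt_of_le_of_ne ht.2 (by rintro rfl; exact e1 hteq)⟩
  refine ⟨isClosed_Icc.inter (isClosed_eq hw continuous_const), preperfect_iff_nhds.mpr ?_⟩
  rintro t0 ⟨ht0, hteq⟩ U hU
  obtain ⟨h0, h1⟩ := hFin t0 ⟨ht0, hteq⟩
  obtain ⟨ε, hε, hball⟩ := Metric.mem_nhds_iff.mp hU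
  obtain ⟨a, ha1, ha2⟩ := exists_rat_btwn (max_lt h0 (by linarith : t0 - ε < t0))
  obtain ⟨b, hb1, hb2⟩ := exists_rat_btwn (lt_min h1 (by linarith : t0 < t0 + ε))
  have g1 : 0 < (a : ℝ) := lt_of_le_of_lt (le_max_left _ _) ha1
  have g2 : t0 - ε < a := lt_of_le_of_lt (le_max_right _ _) ha1
  have g3 : (b : ℝ) < 1 := lt_of_lt_of_le hb2 (min_le_left _ _)
  have g4 : (b : ℝ) < t0 + ε := lt_of_lt_of_le hb2 (min_le_right _ _)
  have hZ : p ∈ Zs f.1 a b := ⟨hpI, t0, ⟨ha2.le, hb1.le⟩, hteq⟩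
  have hN : p ∈ Ns f.1 a b := by
    by_contra hN
    exact hp.1 (a, b) (by simp only; linarith) (by simp only; linarith)
      (by simp only; linarith) ⟨hZ, hN⟩
  obtain ⟨s1, hs1, s2, hs2, hs12, e1, e2⟩ := two_zeros hw hN.2
  have hmem : ∀ s ∈ Icc (a : ℝ) b, UU f.1 p s = p 0 → s ∈ U ∩ Zr f p := by
    intro s hs hse
    refine ⟨hball ?_, ⟨by linarith [hs.1], by linarith [hs.2]⟩, hse⟩
    rw [Metric.mem_ball, Real.dist_eq, abs_lt]
    constructor <;> linarith [hs.1, hs.2]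
  by_cases hst : s1 = t0
  · exact ⟨s2, hmem s2 hs2 e2, by rw [← hst]; exact hs12.ne'⟩
  · exact ⟨s1, hmem s1 hs1 e1, hst⟩

theorem cantor_of_perfect {F : Set ℝ} (hF : Perfect F) {t : ℝ} (ht : t ∈ F) {O : Set ℝ}
    (hO : IsOpen O) (htO : t ∈ O) :
    ∃ φ : (ℕ → Bool) → ℝ, Continuous φ ∧ Function.Injective φ ∧ ∀ b, φ b ∈ F ∧ φ b ∈ O := by
  obtain ⟨ε, hε, hball⟩ := Metric.isOpen_iff.mp hO t htO
  obtain ⟨h1, h2⟩ := hF.closure_nhds_inter t ht (Metric.mem_ball_self (half_pos hε))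
    Metric.isOpen_ball
  obtain ⟨φ, hφ1, hφ2, hφ3⟩ := h1.exists_nat_bool_injection h2
  refine ⟨φ, hφ2, hφ3, fun b => ?_⟩
  have hb : φ b ∈ closure (Metric.ball t (ε / 2) ∩ F) := hφ1 (mem_range_self b)
  constructor
  · exact hF.closed.closure_subset_iff.2 inter_subset_right hb
  · refine hball ?_
    have h3 : φ b ∈ Metric.closedBall t (ε / 2) :=
      Metric.closure_ball_subset_closedBall (closure_mono inter_subset_left hb)
    exact Metric.closedBall_subset_ball (half_lt_self hε) h3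

/-- The point of the graph over the parameter `t`. -/
noncomputable def ZZ (f : HomeoCube (n + 2)) (p : Fin (n + 2) → ℝ) (t : ℝ) :
    EuclideanSpace ℝ (Fin (n + 2) ⊕ Fin (n + 2)) :=
  WithLp.toLp 2 (Sum.elim (fun i => (pt p t i : ℝ)) (fun i => (f.1 (pt p t) i : ℝ)))

theorem continuous_ZZ (f : HomeoCube (n + 2)) (p : Fin (n + 2) → ℝ) : Continuous (ZZ f p) := by
  have hpt : Continuous fun t => pt p t := continuous_pt.comp (continuous_const.prodMk continuous_id)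
  refine (PiLp.continuous_toLp 2 _).comp (continuous_pi fun j => ?_)
  rcases j with i | i
  · exact continuous_subtype_val.comp ((continuous_apply i).comp hpt)
  · exact continuous_subtype_val.comp ((continuous_apply i).comp (f.1.continuous.comp hpt))

theorem ZZ_mem {f : HomeoCube (n + 2)} {p : Fin (n + 2) → ℝ}
    (hpI : p ∈ Icc (0 : Fin (n + 2) → ℝ) 1) {t : ℝ} (ht : t ∈ Zr f p) : ZZ f p t ∈ Fibre f p := by
  refine ⟨⟨pt p t, fun i => by simp [ZZ], fun i => by simp [ZZ]⟩, fun i => ?_⟩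
  refine Fin.cases ?_ (fun i => ?_) i
  · simp only [Fin.val_zero, if_true, ZZ, Sum.elim_inr]
    exact ht.2
  · simp only [Fin.val_succ, Nat.add_eq_zero_iff, one_ne_zero, and_false, if_false, ZZ,
      Sum.elim_inl]
    exact pt_succ hpI t i

theorem ZZ_injOn {f : HomeoCube (n + 2)} {p : Fin (n + 2) → ℝ} : InjOn (ZZ f p) (Zr f p) := by
  rintro t ht t' ht' hZ
  have h3 : ZZ f p t (Sum.inl 0) = ZZ f p t' (Sum.inl 0) := by rw [hZ]
  simp only [ZZ, Sum.elim_inl] at h3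
  rwa [pt_zero p ht.1, pt_zero p ht'.1] at h3

theorem fibre_eq {f : HomeoCube (n + 2)} {p : Fin (n + 2) → ℝ}
    {z : EuclideanSpace ℝ (Fin (n + 2) ⊕ Fin (n + 2))} (hz : z ∈ Fibre f p) :
    p ∈ Icc (0 : Fin (n + 2) → ℝ) 1 ∧ ∃ t ∈ Zr f p, ZZ f p t = z := by
  obtain ⟨⟨x, hx1, hx2⟩, hzp⟩ := hz
  have h0 : p 0 = f.1 x 0 := by
    have := hzp 0
    simp only [Fin.val_zero, if_true] at this
    rw [← this, hx2]
  have hs : ∀ i : Fin (n + 1), p i.succ = x i.succ := by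
    intro i
    have := hzp i.succ
    simp only [Fin.val_succ, Nat.add_eq_zero_iff, one_ne_zero, and_false, if_false] at this
    rw [← this, hx1]
  have hpI : p ∈ Icc (0 : Fin (n + 2) → ℝ) 1 := by
    constructor
    · intro i
      refine Fin.cases ?_ (fun i => ?_) i
      · rw [h0]; exact (f.1 x 0).2.1
      · rw [hs]; exact (x i.succ).2.1
    · intro i
      refine Fin.cases ?_ (fun i => ?_) i
      · rw [h0]; exact (f.1 x 0).2.2
      · rw [hs]; exact (x i.succ).2.2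
  have hpt : pt p (x 0 : ℝ) = x := by
    funext i
    refine Fin.cases ?_ (fun i => ?_) i
    · exact Subtype.ext (pt_zero p (x 0).2)
    · exact Subtype.ext ((pt_succ hpI _ i).trans (hs i))
  refine ⟨hpI, x 0, ⟨(x 0).2, ?_⟩, ?_⟩
  · simp only [UU, hpt, h0]
  · ext j
    rcases j with i | i
    · simp [ZZ, hpt, hx1]
    · simp [ZZ, hpt, hx2]

/-- Over a good point the fibre has a Cantor set near each of its points. -/
theorem cantor_fibre {f : HomeoCube (n + 2)} {p : Fin (n + 2) → ℝ} (hp : Good f p)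
    {z : EuclideanSpace ℝ (Fin (n + 2) ⊕ Fin (n + 2))} (hz : z ∈ Fibre f p)
    {U : Set (EuclideanSpace ℝ (Fin (n + 2) ⊕ Fin (n + 2)))} (hU : IsOpen U) (hzU : z ∈ U) :
    HasCantorSet (Fibre f p ∩ U) := by
  obtain ⟨hpI, t, ht, rfl⟩ := fibre_eq hz
  obtain ⟨φ, hφ1, hφ2, hφ3⟩ := cantor_of_perfect (perfect_Zr hp hpI) ht
    (hU.preimage (continuous_ZZ f p)) hzU
  refine ⟨fun b => ZZ f p (φ b), (continuous_ZZ f p).comp hφ1, ?_, fun b =>
    ⟨ZZ_mem hpI (hφ3 b).1, (hφ3 b).2⟩⟩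
  intro b b' hbb
  exact hφ2 (ZZ_injOn (hφ3 b).1 (hφ3 b').1 hbb)

/-- The part of the graph over a box has a projection of positive measure. -/
theorem pos_box (f : HomeoCube (n + 2)) {lo hi : Fin (n + 2) → ℚ}
    (hb : ∀ i, 0 ≤ (lo i : ℝ) ∧ (lo i : ℝ) < hi i ∧ (hi i : ℝ) ≤ 1)
    (hN : 0 < volume (Ns f.1 (lo 0) (hi 0) ∩ Side (fun i => (lo i : ℝ)) (fun i => (hi i : ℝ))))
    (hg : ∀ᵐ p : Fin (n + 2) → ℝ, Good f p)
    {U : Set (EuclideanSpace ℝ (Fin (n + 2) ⊕ Fin (n + 2)))}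
    (hS : ∀ z ∈ graph f, (∀ i, z (Sum.inl i) ∈ Ioo (lo i : ℝ) (hi i)) → z ∈ U) :
    0 < volume {p : Fin (n + 2) → ℝ | (Fibre f p ∩ U).Nonempty} := by
  by_contra hcon
  have h0 : volume {p : Fin (n + 2) → ℝ | (Fibre f p ∩ U).Nonempty} = 0 :=
    nonpos_iff_eq_zero.1 (not_lt.1 hcon)
  refine hN.ne' (measure_mono_null (t := {p : Fin (n + 2) → ℝ | (Fibre f p ∩ U).Nonempty} ∪
    {p | ¬ Good f p}) ?_ (measure_union_null h0 (ae_iff.1 hg)))
  rintro p ⟨hpN, hpS⟩
  by_cases hp : Good f p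
  · left
    have hpI := hpN.1
    have hw : Continuous fun t => UU f.1 p t :=
      (continuous_UU f.1.continuous).comp (continuous_const.prodMk continuous_id)
    obtain ⟨s, hs, -, -, -, e, -⟩ := two_zeros hw hpN.2
    have hs' : s ∈ Ioo (lo 0 : ℝ) (hi 0) :=
      ⟨lt_of_le_of_ne hs.1 (by rintro rfl; exact hp.2 _ e),
        lt_of_le_of_ne hs.2 (by rintro rfl; exact hp.2 _ e)⟩
    have hs01 : s ∈ Icc (0 : ℝ) 1 :=
      ⟨(hb 0).1.trans hs.1, hs.2.trans (hb 0).2.2⟩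
    have hF : ZZ f p s ∈ Fibre f p := ZZ_mem hpI ⟨hs01, e⟩
    refine ⟨ZZ f p s, hF, hS _ hF.1 fun i => ?_⟩
    simp only [ZZ, Sum.elim_inl]
    refine Fin.cases ?_ (fun i => ?_) i
    · rw [pt_zero p hs01]; exact hs'
    · rw [pt_succ hpI s i]; exact hpS i
  · right
    exact hp

/-- A set whose fibres contain Cantor sets over a set of positive measure is not σ-finite. -/
theorem not_sigmaFinite (f : HomeoCube (n + 2))
    {U : Set (EuclideanSpace ℝ (Fin (n + 2) ⊕ Fin (n + 2)))} (hU : IsOpen U)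
    (hg : ∀ᵐ p : Fin (n + 2) → ℝ, Good f p)
    (hpos : 0 < volume {p : Fin (n + 2) → ℝ | (Fibre f p ∩ U).Nonempty}) :
    ¬ SigmaFiniteSet (n + 2) (graph f ∩ U) := by
  rintro ⟨A, hA1, hA2⟩
  have hfin : ∀ᵐ p : Fin (n + 2) → ℝ, ∀ m, (A m ∩ proj ⁻¹' {p}).Finite := by
    rw [ae_all_iff]
    intro m
    exact ae_finite_fiber (A m) (hA2 m) proj proj_lipschitz
  obtain ⟨p, ⟨z, hz, hzU⟩, hp1, hp2⟩ : ∃ p ∈ {p : Fin (n + 2) → ℝ | (Fibre f p ∩ U).Nonempty},
      (∀ m, (A m ∩ proj ⁻¹' {p}).Finite) ∧ Good f p := by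
    by_contra hcon
    push Not at hcon
    refine hpos.ne' (measure_mono_null ?_ (ae_iff.mp (hfin.and hg)))
    intro p hp hh
    exact hcon p hp hh.1 hh.2
  obtain ⟨φ, -, hφ2, hφ3⟩ := cantor_fibre hp2 hz hU hzU
  have hsub : range φ ⊆ ⋃ m, (A m ∩ proj ⁻¹' {p}) := by
    rintro _ ⟨b, rfl⟩
    obtain ⟨h1, h2⟩ := hφ3 b
    have h3 : φ b ∈ graph f ∩ U := ⟨h1.1, h2⟩
    rw [hA1] at h3
    obtain ⟨m, hm⟩ := mem_iUnion.mp h3
    refine mem_iUnion.mpr ⟨m, hm, ?_⟩
    simp only [mem_preimage, mem_singleton_iff]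
    funext i
    rw [← h1.2 i]
    refine Fin.cases ?_ (fun i => ?_) i
    · simp [proj]
    · simp [proj, Fin.succ_ne_zero]
  have h5 : (range φ).Countable := (countable_iUnion fun m => (hp1 m).countable).mono hsub
  have h6 : Countable (ℕ → Bool) := by
    have : Countable (range φ) := h5.to_subtype
    exact (Equiv.ofInjective φ hφ2).countable_iff.mpr this
  have h7 : Cardinal.mk (ℕ → Bool) ≤ Cardinal.aleph0 := Cardinal.mk_le_aleph0_iff.mpr h6
  have h8 : Cardinal.mk (ℕ → Bool) = Cardinal.continuum := by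
    rw [← Cardinal.power_def, Cardinal.mk_bool, Cardinal.mk_nat, Cardinal.two_power_aleph0]
  rw [h8] at h7
  exact absurd h7 (not_le.mpr Cardinal.aleph0_lt_continuum)

/-- A nonempty relatively open part of the graph contains the part over a rational box. -/
theorem exists_box (f : HomeoCube (n + 2)) (U : Set (EuclideanSpace ℝ (Fin (n + 2) ⊕ Fin (n + 2))))
    (hU : IsOpen U) (hne : (graph f ∩ U).Nonempty) :
    ∃ lo hi : Fin (n + 2) → ℚ, (∀ i, 0 ≤ (lo i : ℝ) ∧ (lo i : ℝ) < hi i ∧ (hi i : ℝ) ≤ 1) ∧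
      ∀ z ∈ graph f, (∀ i, z (Sum.inl i) ∈ Ioo (lo i : ℝ) (hi i)) → z ∈ U := by
  obtain ⟨z, ⟨x, hx1, hx2⟩, hzU⟩ := hne
  let G : (Fin (n + 2) → I) → EuclideanSpace ℝ (Fin (n + 2) ⊕ Fin (n + 2)) := fun x =>
    WithLp.toLp 2 (Sum.elim (fun i => (x i : ℝ)) (fun i => (f.1 x i : ℝ)))
  have hG : Continuous G := by
    refine (PiLp.continuous_toLp 2 _).comp (continuous_pi fun j => ?_)
    rcases j with i | i
    · exact continuous_subtype_val.comp (continuous_apply i)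
    · exact continuous_subtype_val.comp ((continuous_apply i).comp f.1.continuous)
  have hzG : ∀ (z : EuclideanSpace ℝ (Fin (n + 2) ⊕ Fin (n + 2))) (x : Fin (n + 2) → I),
      (∀ i, z (Sum.inl i) = x i) → (∀ i, z (Sum.inr i) = f.1 x i) → z = G x := by
    intro z x h1 h2
    ext j
    rcases j with i | i
    · simpa [G] using h1 i
    · simpa [G] using h2 i
  have hV : IsOpen (G ⁻¹' U) := hU.preimage hG
  have hxV : x ∈ G ⁻¹' U := by
    show G x ∈ U
    rw [← hzG z x hx1 hx2]; exact hzU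
  obtain ⟨ε, hε, hball⟩ := Metric.isOpen_iff.mp hV x hxV
  -- a rational subinterval of `(0,1)` within `ε` of `x i`
  have hq : ∀ i, ∃ q : ℚ × ℚ, 0 ≤ (q.1 : ℝ) ∧ (q.1 : ℝ) < q.2 ∧ (q.2 : ℝ) ≤ 1 ∧
      ∀ s ∈ Ioo (q.1 : ℝ) q.2, |s - x i| < ε := by
    intro i
    obtain ⟨h0, h1⟩ := (x i).2
    have hlt : max 0 ((x i : ℝ) - ε) < min 1 ((x i : ℝ) + ε) :=
      max_lt (lt_min zero_lt_one (by linarith)) (lt_min (by linarith) (by linarith))
    obtain ⟨a, ha1, ha2⟩ := exists_rat_btwn hlt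
    obtain ⟨b, hb1, hb2⟩ := exists_rat_btwn ha2
    refine ⟨(a, b), (le_max_left _ _).trans ha1.le, hb1, (hb2.trans_le (min_le_left _ _)).le, ?_⟩
    rintro s ⟨hs1, hs2⟩
    simp only at hs1 hs2
    have e1 : (x i : ℝ) - ε < a := (le_max_right _ _).trans_lt ha1
    have e2 : (b : ℝ) < (x i : ℝ) + ε := hb2.trans_le (min_le_right _ _)
    rw [abs_lt]
    constructor <;> linarith
  choose q hq1 hq2 hq3 hq4 using hq
  refine ⟨fun i => (q i).1, fun i => (q i).2, fun i => ⟨hq1 i, hq2 i, hq3 i⟩, ?_⟩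
  rintro z' ⟨x', hx1', hx2'⟩ hz'
  rw [hzG z' x' hx1' hx2']
  refine hball ?_
  rw [Metric.mem_ball, dist_pi_lt_iff hε]
  intro i
  rw [Subtype.dist_eq, Real.dist_eq]
  refine hq4 i _ ?_
  have := hz' i
  rwa [hx1' i] at this

/-- For `d ≥ 2` and the generic homeomorphism `f` of `[0,1]^d`: (1) for almost every `p` the fibre of
the graph of `f` over `p` has a Cantor set in every neighbourhood of each of its points; (2) every
nonempty relatively open part of the graph meets the fibres over a set of `p` of positive (outer)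
measure; (3) no nonempty relatively open part of the graph has σ-finite `d`-dimensional Hausdorff
measure. -/
theorem result (d : ℕ) (hd : 2 ≤ d) :
    {f : HomeoCube d |
      (∀ᵐ p : Fin d → ℝ, ∀ z ∈ Fibre f p, ∀ U : Set (EuclideanSpace ℝ (Fin d ⊕ Fin d)),
        IsOpen U → z ∈ U → HasCantorSet (Fibre f p ∩ U)) ∧
      ∀ U : Set (EuclideanSpace ℝ (Fin d ⊕ Fin d)), IsOpen U → (graph f ∩ U).Nonempty →
        0 < volume {p : Fin d → ℝ | (Fibre f p ∩ U).Nonempty} ∧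
        ¬ SigmaFiniteSet d (graph f ∩ U)} ∈ residual (HomeoCube d) := by
  obtain ⟨n, rfl⟩ : ∃ n, d = n + 2 := ⟨d - 2, by omega⟩
  have h1 : ∀ q : (Fin (n + 2) → ℚ) × (Fin (n + 2) → ℚ), {f : HomeoCube (n + 2) |
      (∀ i, 0 ≤ (q.1 i : ℝ) ∧ (q.1 i : ℝ) < q.2 i ∧ (q.2 i : ℝ) ≤ 1) →
      0 < volume (Ns f.1 (q.1 0) (q.2 0) ∩ Side (fun i => (q.1 i : ℝ)) (fun i => (q.2 i : ℝ)))} ∈
      residual (HomeoCube (n + 2)) := by
    intro q
    by_cases h : ∀ i, 0 ≤ (q.1 i : ℝ) ∧ (q.1 i : ℝ) < q.2 i ∧ (q.2 i : ℝ) ≤ 1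
    · refine mem_of_superset (residual_of_dense_open
        (isOpen_posN' (fun i => (q.1 i : ℝ)) (fun i => (q.2 i : ℝ)))
        (dense_posN' (lo := fun i => (q.1 i : ℝ)) (hi := fun i => (q.2 i : ℝ)) h)) ?_
      intro f hf _
      exact hf
    · exact mem_of_superset univ_mem fun f _ hh => absurd hh h
  have h2 : ∀ q : (ℚ × ℚ) × ℕ, {f : HomeoCube (n + 2) | (0 : ℝ) < q.1.1 → (q.1.1 : ℝ) < q.1.2 →
      (q.1.2 : ℝ) < 1 → volume (Bad f q.1.1 q.1.2) < ((q.2 : ENNReal) + 1)⁻¹} ∈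
      residual (HomeoCube (n + 2)) := by
    intro q
    by_cases h : (0 : ℝ) < q.1.1 ∧ (q.1.1 : ℝ) < q.1.2 ∧ (q.1.2 : ℝ) < 1
    · refine mem_of_superset (residual_of_dense_open
        (isOpen_smallBad (n := n) (q.1.1 : ℝ) q.1.2 ((q.2 : ENNReal) + 1)⁻¹)
        (dense_smallBad h.1.le h.2.1 h.2.2.le (ENNReal.inv_pos.mpr (by finiteness)))) ?_
      intro f hf _ _ _
      exact hf
    · refine mem_of_superset univ_mem fun f _ a1 a2 a3 => absurd ⟨a1, a2, a3⟩ h
  refine mem_of_superset (inter_mem (countable_iInter_mem.mpr h1) (countable_iInter_mem.mpr h2)) ?_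
  rintro f ⟨hf1, hf2⟩
  rw [mem_iInter] at hf1 hf2
  have hg : ∀ᵐ p : Fin (n + 2) → ℝ, Good f p := by
    refine ae_good f fun a b ha hab hb => ?_
    by_contra hne
    obtain ⟨m, hm⟩ := ENNReal.exists_inv_nat_lt hne
    have := hf2 ((a, b), m) ha hab hb
    have h4 : ((m : ENNReal) + 1)⁻¹ ≤ (m : ENNReal)⁻¹ := ENNReal.inv_le_inv.mpr le_self_add
    exact absurd (this.trans_le h4) (not_lt.mpr hm.le)
  refine ⟨?_, fun U hU hne => ?_⟩
  · filter_upwards [hg] with p hp z hz U hU hzU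
    exact cantor_fibre hp hz hU hzU
  · obtain ⟨lo, hi, hb, hbox⟩ := exists_box f U hU hne
    have hpos := pos_box f hb (hf1 (lo, hi) hb) hg hbox
    exact ⟨hpos, not_sigmaFinite f hU hg hpos⟩

end Pool.Agent.Results.MP_c4f89b_an.PerfectFibres
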